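import Pool.Agent.N24.RW.All
import Pool.Agent.N676.OR.Diag

/-!
# Random orbits of semigroups of affine maps with integral coefficients

A finite family of affine maps `x ↦ A_j x + b_j` of `ℤ^ι`, with `det A_j ≠ 0` arbitrary, such that for all
`q` prime to some number `M` the maps are permutations of `(ℤ/q)^ι` which generate a transitive group. For
example the maps `x ↦ b x + d`, `d` in a set of digits, the affine maps of `ℤ` without a common fixed
point, or `x ↦ A x + d` with an integral matrix `A`, where the differences of the `d` and their images under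
the powers of `A` span the space.
-/

set_option autoImplicit false

set_option linter.unusedSectionVars false

namespace Run7.h972.AW

open MeasureTheory Filter Topology
open Pool.Agent.N24.RW (ProNull words)
open Pool.Agent.N676.OR (DensityZero)

section

variable {ι : Type} [Fintype ι] [DecidableEq ι]

/-- the affine map `x ↦ A x + b` with coefficients in `R` -/
def aff {R : Type} [CommRing R] (A : Matrix ι ι ℤ) (b : ι → ℤ) (x : ι → R) : ι → R :=
  fun i => ∑ k, ((A i k : ℤ) : R) * x k + ((b i : ℤ) : R)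

/-- A finite family of affine maps `x ↦ A_j x + b_j` of `ℤ^ι` whose determinants are prime to all
`q` which are prime to `M`, and which generate a transitive group of permutations of `(ℤ/q)^ι` for
these `q`: a set which contains a vector `x` if and only if it contains `A_j x + b_j`, for all `j`
and `x`, is empty or everything. -/
structure AffineWalk (ι : Type) [Fintype ι] [DecidableEq ι] where
  m : ℕ
  A : Fin (m + 1) → Matrix ι ι ℤ
  b : Fin (m + 1) → ι → ℤ
  M : ℕ
  pos : 0 < M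
  unit : ∀ q : ℕ, 0 < q → q.Coprime M → ∀ j, IsUnit (((A j).det : ℤ) : ZMod q)
  trans : ∀ q : ℕ, 0 < q → q.Coprime M → ∀ S : Set (ι → ZMod q), S.Nonempty →
    (∀ j x, aff (A j) (b j) x ∈ S ↔ x ∈ S) → S = Set.univ

/-- the random orbit `c_0 = v`, `c_(n+1) = A_(w n) c_n + b_(w n)` -/
def aorb (W : AffineWalk ι) (v : ι → ℤ) (w : ℕ → Fin (W.m + 1)) : ℕ → ι → ℤ
  | 0 => v
  | n + 1 => aff (W.A (w n)) (W.b (w n)) (aorb W v w n)

/-- reduction modulo `q` -/
def red (q : ℕ) (c : ι → ℤ) (i : ι) : ZMod q := (c i : ZMod q)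

lemma red_aff (q : ℕ) (A : Matrix ι ι ℤ) (b c : ι → ℤ) :
    red q (aff A b c) = aff A b (red q c) := by
  funext i
  simp [red, aff]

lemma aff_bij {q : ℕ} {A : Matrix ι ι ℤ} (hA : IsUnit ((A.det : ℤ) : ZMod q)) (b : ι → ℤ) :
    Function.Bijective (aff (R := ZMod q) A b) := by
  have hdet : IsUnit (A.map (Int.castRingHom (ZMod q))).det := by
    rw [← RingHom.mapMatrix_apply, ← RingHom.map_det]
    simpa using hA
  have hu : IsUnit (A.map (Int.castRingHom (ZMod q))) := (Matrix.isUnit_iff_isUnit_det _).2 hdet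
  have hf : aff (R := ZMod q) A b = (fun y => y + fun i => ((b i : ℤ) : ZMod q)) ∘
      (A.map (Int.castRingHom (ZMod q))).mulVec := by
    funext x i
    simp [aff, Matrix.mulVec, dotProduct]
  rw [hf]
  refine (Equiv.addRight fun i => ((b i : ℤ) : ZMod q)).bijective.comp ?_
  obtain ⟨U, hU⟩ := hu
  rw [← hU]
  constructor
  · intro x y hxy
    have h1 := congrArg (fun z => (↑U⁻¹ : Matrix ι ι (ZMod q)).mulVec z) hxy
    simpa [Matrix.mulVec_mulVec] using h1
  · intro y
    exact ⟨(↑U⁻¹ : Matrix ι ι (ZMod q)).mulVec y, by simp [Matrix.mulVec_mulVec]⟩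

/-- one modulus -/
lemma step (W : AffineWalk ι) (v : ι → ℤ) (B : Set (ι → ℤ)) (q : ℕ) (hq : 0 < q)
    (hqc : q.Coprime W.M) (ε : ℝ)
    (hB : ((((fun (c : ι → ℤ) (i : ι) => (c i : ZMod q)) '' B).ncard : ℕ) : ℝ) ≤
      ε * (q : ℝ) ^ Fintype.card ι) :
    ∀ᵐ w ∂(words W.m), ∀ δ : ℝ, 0 < δ → ∀ᶠ N : ℕ in atTop,
      (({n : ℕ | n < N ∧ aorb W v w n ∈ B}.ncard : ℕ) : ℝ) / (N : ℝ) ≤ ε + δ := by
  classical
  have : NeZero q := ⟨hq.ne'⟩
  obtain ⟨s, hs⟩ : ∃ s : Fin (W.m + 1) → Equiv.Perm (ι → ZMod q),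
      ∀ j x, s j x = aff (W.A j) (W.b j) x :=
    ⟨fun j => Equiv.ofBijective _ (aff_bij (W.unit q hq hqc j) (W.b j)), fun j x => rfl⟩
  obtain ⟨H, hH⟩ : ∃ H : Subgroup (Equiv.Perm (ι → ZMod q)), H = Subgroup.closure (Set.range s) :=
    ⟨_, rfl⟩
  have hmem : ∀ j, s j ∈ H := fun j => hH ▸ Subgroup.subset_closure ⟨j, rfl⟩
  have hpre : MulAction.IsPretransitive H (ι → ZMod q) := by
    refine ⟨fun x y => ?_⟩
    have h1 : MulAction.orbit H x = Set.univ := by
      refine W.trans q hq hqc _ ⟨x, MulAction.mem_orbit_self x⟩ fun j z => ?_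
      rw [← hs]
      have h2 : s j z = (⟨s j, hmem j⟩ : H) • z := rfl
      rw [h2]
      constructor
      · rintro ⟨g, hg⟩
        refine ⟨(⟨s j, hmem j⟩ : H)⁻¹ * g, ?_⟩
        have h3 : g • x = (⟨s j, hmem j⟩ : H) • z := hg
        show ((⟨s j, hmem j⟩ : H)⁻¹ * g) • x = z
        rw [mul_smul, h3, inv_smul_smul]
      · rintro ⟨g, hg⟩
        refine ⟨(⟨s j, hmem j⟩ : H) * g, ?_⟩
        have h3 : g • x = z := hg
        show ((⟨s j, hmem j⟩ : H) * g) • x = _
        rw [mul_smul, h3]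
    exact MulAction.mem_orbit_iff.1 (h1 ▸ Set.mem_univ y)
  have hgen : Subgroup.closure (Set.range fun j => (⟨s j, hmem j⟩ : H)) = ⊤ := by
    have h1 : (Set.range fun j => (⟨s j, hmem j⟩ : H)) =
        (Subtype.val : H → Equiv.Perm (ι → ZMod q)) ⁻¹' (Set.range s) := by
      ext ⟨g, hg⟩
      simp [Subtype.ext_iff]
    rw [h1]
    subst hH
    exact Subgroup.closure_closure_coe_preimage
  obtain ⟨R, hR⟩ : ∃ R : Set (ι → ZMod q), R = (fun (c : ι → ℤ) (i : ι) => (c i : ZMod q)) '' B :=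
    ⟨_, rfl⟩
  rw [← hR] at hB
  have h1 := Pool.Agent.N24.RW.t_ERG H (ι → ZMod q) W.m (fun j => ⟨s j, hmem j⟩) hgen (red q v) R
  have hcard : (Nat.card (ι → ZMod q) : ℝ) = (q : ℝ) ^ Fintype.card ι := by
    rw [Pool.Agent.N24.RW.Clo.card_pi]
    push_cast
    rfl
  have hqpos : (0 : ℝ) < (q : ℝ) ^ Fintype.card ι := by
    have : (0 : ℝ) < q := by exact_mod_cast hq
    positivity
  filter_upwards [h1] with w hw δ hδ
  have h2 := hw (fun n => red q (aorb W v w n)) rfl (fun n => by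
    show red q (aff _ _ _) = _
    rw [red_aff]
    exact (hs _ _).symm)
  have hlim : (R.ncard : ℝ) / (Nat.card (ι → ZMod q) : ℝ) ≤ ε := by
    rw [hcard, div_le_iff₀ hqpos]
    exact hB
  have h3 := (tendsto_order.1 h2).2 (ε + δ) (by linarith)
  filter_upwards [h3] with N hN
  refine le_trans ?_ hN.le
  refine div_le_div_of_nonneg_right ?_ (Nat.cast_nonneg N)
  have h4 : {n : ℕ | n < N ∧ aorb W v w n ∈ B}.ncard ≤
      {n : ℕ | n < N ∧ red q (aorb W v w n) ∈ R}.ncard := by
    refine Set.ncard_le_ncard ?_ ((Set.finite_Iio N).subset fun n hn => hn.1)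
    intro n hn
    refine ⟨hn.1, ?_⟩
    rw [hR]
    exact ⟨_, hn.2, rfl⟩
  exact_mod_cast h4

/-- **main theorem**: almost surely the random orbit of `v` is in the pronull set `B` only at a set of
times of density zero -/
theorem main (W : AffineWalk ι) (v : ι → ℤ) {B : Set (ι → ℤ)} (hB : ProNull B) :
    ∀ᵐ w ∂(words W.m), DensityZero {t : ℕ | aorb W v w t ∈ B} := by
  have h1 : ∀ k : ℕ, ∀ᵐ w ∂(words W.m), ∀ δ : ℝ, 0 < δ → ∀ᶠ N : ℕ in atTop,
      (({n : ℕ | n < N ∧ aorb W v w n ∈ B}.ncard : ℕ) : ℝ) / (N : ℝ) ≤ 1 / ((k : ℝ) + 1) + δ := by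
    intro k
    obtain ⟨q, hq, hqc, hqB⟩ := hB _ W.pos (1 / ((k : ℝ) + 1)) (by positivity)
    exact step W v B q hq hqc _ hqB
  filter_upwards [ae_all_iff.2 h1] with w hw
  unfold DensityZero
  rw [tendsto_order]
  constructor
  · intro a ha
    exact Eventually.of_forall fun N => lt_of_lt_of_le ha (by positivity)
  · intro a ha
    obtain ⟨k, hk⟩ := exists_nat_gt (4 / a)
    filter_upwards [hw k (a / 4) (by linarith)] with N hN
    have h4 : 1 / ((k : ℝ) + 1) ≤ a / 4 := by
      rw [div_le_div_iff₀ (by positivity) (by norm_num)]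
      rw [div_lt_iff₀ ha] at hk
      nlinarith
    refine lt_of_le_of_lt hN ?_
    linarith

/-- one set of times of density zero for countably many pronull sets and all starting vectors -/
theorem one_set (W : AffineWalk ι) {κ : Type} [Countable κ] (B : κ → Set (ι → ℤ))
    (hB : ∀ k, ProNull (B k)) :
    ∀ᵐ w ∂(words W.m), ∃ E : Set ℕ, DensityZero E ∧ ∀ (v : ι → ℤ) (k : κ),
      {t : ℕ | t ∉ E ∧ aorb W v w t ∈ B k}.Finite := by
  have hall : ∀ᵐ w ∂(words W.m), ∀ x : (ι → ℤ) × κ, DensityZero {t : ℕ | aorb W x.1 w t ∈ B x.2} :=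
    ae_all_iff.2 fun x => main W x.1 (hB x.2)
  filter_upwards [hall] with w hw
  by_cases hne : Nonempty ((ι → ℤ) × κ)
  · obtain ⟨f, hf⟩ := exists_surjective_nat ((ι → ℤ) × κ)
    obtain ⟨E, hE1, hE2⟩ := Pool.Agent.N676.OR.diag
      (fun k => {t : ℕ | aorb W (f k).1 w t ∈ B (f k).2}) (fun k => hw (f k))
    refine ⟨E, hE1, fun v k => ?_⟩
    obtain ⟨l, hl⟩ := hf (v, k)
    have h1 := hE2 l
    rw [hl] at h1
    exact h1.subset fun t ht => ⟨ht.2, ht.1⟩
  · exact ⟨∅, Pool.Agent.N676.OR.dz_empty, fun v k => absurd ⟨(v, k)⟩ hne⟩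

lemma proNull_empty : ProNull (∅ : Set (ι → ℤ)) := by
  intro M _ ε hε
  refine ⟨1, one_pos, Nat.coprime_one_left M, ?_⟩
  simp only [Set.image_empty, Set.ncard_empty, Nat.cast_zero]
  positivity

/-- a pronull set for every value of a proposition -/
lemma proNull_imp {p : Prop} {B : Set (ι → ℤ)} (h : p → ProNull B) :
    ProNull {c : ι → ℤ | p ∧ c ∈ B} := by
  by_cases hp : p
  · exact Pool.Agent.N24.RW.Clo.mono (fun c hc => hc.2) (h hp)
  · exact Pool.Agent.N24.RW.Clo.mono (fun c hc => absurd hc.1 hp) proNull_empty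

/-- countably many properties of the values of linear forms -/
theorem one_set_lin (W : AffineWalk ι) {κ : Type} [Countable κ] (good : κ → ℤ → Prop)
    (h : ∀ lam : ι → ℤ, lam ≠ 0 → ∀ k, ProNull {c : ι → ℤ | ¬ good k (∑ i, lam i * c i)}) :
    ∀ᵐ w ∂(words W.m), ∃ E : Set ℕ, DensityZero E ∧ ∀ (v lam : ι → ℤ), lam ≠ 0 → ∀ k,
      {t : ℕ | t ∉ E ∧ ¬ good k (∑ i, lam i * aorb W v w t i)}.Finite := by
  filter_upwards [one_set W (κ := {lam : ι → ℤ // lam ≠ 0} × κ)
    (fun x => {c : ι → ℤ | ¬ good x.2 (∑ i, x.1.1 i * c i)}) (fun x => h x.1.1 x.1.2 x.2)] with w hw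
  obtain ⟨E, hE, h2⟩ := hw
  exact ⟨E, hE, fun v lam hlam k => h2 v (⟨lam, hlam⟩, k)⟩

end

/-- A finite family of affine maps `x ↦ a_j x + b_j`, `a_j ≠ 0`, of `ℤ` two of which do not commute, or one
of which is a translation `x ↦ x + b_j`, `b_j ≠ 0` (if no map is a translation, this means that there
is no common fixed point in `ℚ`), is an affine walk. -/
theorem line_walk (m : ℕ) (a b : Fin (m + 1) → ℤ) (ha : ∀ j, a j ≠ 0)
    (h : (∃ i j, (a i - 1) * b j ≠ (a j - 1) * b i) ∨ ∃ j, a j = 1 ∧ b j ≠ 0) :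
    ∃ W : AffineWalk Unit, W.m = m ∧ ∀ (i : Fin (W.m + 1)) (j : Fin (m + 1)), i.val = j.val →
      W.A i = (fun _ _ => a j) ∧ W.b i = fun _ => b j := by
  classical
  obtain ⟨τ, hτ0, hτ⟩ : ∃ τ : ℤ, τ ≠ 0 ∧ ∀ q : ℕ, 0 < q →
      (∀ j, IsUnit ((a j : ℤ) : ZMod q)) → ∀ S : Set (Unit → ZMod q),
      (∀ j x, aff (fun _ _ => a j) (fun _ => b j) x ∈ S ↔ x ∈ S) →
      ∀ x : Unit → ZMod q, (fun i => x i + (τ : ZMod q)) ∈ S ↔ x ∈ S := by
    have e : ∀ (q : ℕ) (j : Fin (m + 1)) (x : Unit → ZMod q),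
        aff (fun _ _ => a j) (fun _ => b j) x = fun i => (a j : ZMod q) * x i + (b j : ZMod q) := by
      intro q j x
      funext i
      simp [aff]
    rcases h with ⟨i, j, hij⟩ | ⟨j, hj, hb⟩
    · refine ⟨(a i - 1) * b j - (a j - 1) * b i, sub_ne_zero.2 hij, ?_⟩
      intro q hq hu S hS x
      obtain ⟨ui, hui⟩ := hu i
      obtain ⟨uj, huj⟩ := hu j
      -- preimage of `x` under `f_j f_i`
      obtain ⟨z, hz⟩ : ∃ z : Unit → ZMod q, aff (fun _ _ => a j) (fun _ => b j)
          (aff (fun _ _ => a i) (fun _ => b i) z) = x := by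
        refine ⟨fun k => ↑ui⁻¹ * (↑uj⁻¹ * (x k - b j) - b i), ?_⟩
        rw [e, e]
        funext k
        simp only [← hui, ← huj]
        rw [Units.mul_inv_cancel_left, sub_add_cancel, Units.mul_inv_cancel_left, sub_add_cancel]
      have h1 : (fun k => x k + (((a i - 1) * b j - (a j - 1) * b i : ℤ) : ZMod q)) =
          aff (fun _ _ => a i) (fun _ => b i) (aff (fun _ _ => a j) (fun _ => b j) z) := by
        rw [← hz]
        simp only [e]
        funext k
        push_cast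
        ring
      rw [h1, hS, hS, ← hz, hS, hS]
    · refine ⟨b j, hb, fun q _ _ S hS x => ?_⟩
      have h1 := hS j x
      rw [e, hj] at h1
      simpa using h1
  refine ⟨⟨m, fun j => fun _ _ => a j, fun j => fun _ => b j, (τ * ∏ j, a j).natAbs, ?_, ?_, ?_⟩,
    rfl, ?_⟩
  · exact Int.natAbs_pos.2 (mul_ne_zero hτ0 (Finset.prod_ne_zero_iff.2 fun j _ => ha j))
  · intro q hq hqc j
    have h1 : q.Coprime (a j).natAbs := hqc.coprime_dvd_right (Int.natAbs_dvd_natAbs.2
      ((Finset.dvd_prod_of_mem a (Finset.mem_univ j)).mul_left _))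
    have h2 : Matrix.det (fun _ _ : Unit => a j) = a j := by simp [Matrix.det_unique]
    rw [h2, ZMod.coe_int_isUnit_iff_isCoprime, Int.isCoprime_iff_gcd_eq_one]
    exact h1
  · intro q hq hqc S hne hS
    have hu : ∀ j, IsUnit ((a j : ℤ) : ZMod q) := by
      intro j
      rw [ZMod.coe_int_isUnit_iff_isCoprime, Int.isCoprime_iff_gcd_eq_one]
      exact hqc.coprime_dvd_right (Int.natAbs_dvd_natAbs.2
        ((Finset.dvd_prod_of_mem a (Finset.mem_univ j)).mul_left _))
    have hτu : IsUnit ((τ : ℤ) : ZMod q) := by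
      rw [ZMod.coe_int_isUnit_iff_isCoprime, Int.isCoprime_iff_gcd_eq_one]
      exact hqc.coprime_dvd_right (Int.natAbs_dvd_natAbs.2 (Dvd.intro _ rfl))
    have h1 := hτ q hq hu S hS
    have : NeZero q := ⟨hq.ne'⟩
    obtain ⟨x, hx⟩ := hne
    have h2 : ∀ n : ℕ, (fun i => x i + (n : ZMod q) * (τ : ZMod q)) ∈ S := by
      intro n
      induction n with
      | zero => simpa using hx
      | succ n ih =>
        have h3 := (h1 _).2 ih
        convert h3 using 1
        funext i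
        push_cast
        ring
    obtain ⟨u, hu⟩ := hτu
    ext y
    simp only [Set.mem_univ, iff_true]
    have h4 := h2 ((y () - x ()) * ↑u⁻¹ : ZMod q).val
    rw [ZMod.natCast_zmod_val, ← hu] at h4
    have h5 : (fun i : Unit => x i + (y () - x ()) * ↑u⁻¹ * ↑u) = y := by
      funext i
      simp
    rw [h5] at h4
    exact h4
  · intro i j hij
    have h1 : i = j := Fin.ext hij
    subst h1
    exact ⟨rfl, rfl⟩

end Run7.h972.AW
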