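import Pool.Agent.Run7.h972.AW.Base

/-!
# Random orbits of semigroups of affine maps: equidistribution in the residue classes
-/

set_option autoImplicit false

set_option linter.unusedSectionVars false

namespace Run7.h972.AW

open MeasureTheory Filter Topology
open Pool.Agent.N24.RW (words)

variable {ι : Type} [Fintype ι] [DecidableEq ι]

/-- one modulus, one set of residue classes -/
lemma freq_one (W : AffineWalk ι) (v : ι → ℤ) (q : ℕ) (hq : 0 < q) (hqc : q.Coprime W.M)
    (R : Set (ι → ZMod q)) :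
    ∀ᵐ w ∂(words W.m), Tendsto (fun N : ℕ =>
      (({n : ℕ | n < N ∧ red q (aorb W v w n) ∈ R}.ncard : ℕ) : ℝ) / (N : ℝ)) atTop
        (𝓝 ((R.ncard : ℝ) / (q : ℝ) ^ Fintype.card ι)) := by
  classical
  have : NeZero q := ⟨hq.ne'⟩
  obtain ⟨s, hs⟩ : ∃ s : Fin (W.m + 1) → Equiv.Perm (ι → ZMod q),
      ∀ j x, s j x = aff (W.A j) (W.b j) x :=
    ⟨fun j => Equiv.ofBijective _ (aff_bij (W.unit q hq hqc j) (W.b j)), fun j x => rfl⟩
  obtain ⟨H, hH⟩ : ∃ H : Subgroup (Equiv.Perm (ι → ZMod q)), H = Subgroup.closure (Set.range s) :=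
    ⟨_, rfl⟩
  have hmem : ∀ j, s j ∈ H := fun j => hH ▸ Subgroup.subset_closure ⟨j, rfl⟩
  have hpre : MulAction.IsPretransitive H (ι → ZMod q) := by
    refine ⟨fun x y => ?_⟩
    have h1 : MulAction.orbit H x = Set.univ := by
      refine W.trans q hq hqc _ ⟨x, MulAction.mem_orbit_self x⟩ fun j z => ?_
      rw [← hs]
      have h2 : s j z = (⟨s j, hmem j⟩ : H) • z := rfl
      rw [h2]
      constructor
      · rintro ⟨g, hg⟩
        refine ⟨(⟨s j, hmem j⟩ : H)⁻¹ * g, ?_⟩
        have h3 : g • x = (⟨s j, hmem j⟩ : H) • z := hg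
        show ((⟨s j, hmem j⟩ : H)⁻¹ * g) • x = z
        rw [mul_smul, h3, inv_smul_smul]
      · rintro ⟨g, hg⟩
        refine ⟨(⟨s j, hmem j⟩ : H) * g, ?_⟩
        have h3 : g • x = z := hg
        show ((⟨s j, hmem j⟩ : H) * g) • x = _
        rw [mul_smul, h3]
    exact MulAction.mem_orbit_iff.1 (h1 ▸ Set.mem_univ y)
  have hgen : Subgroup.closure (Set.range fun j => (⟨s j, hmem j⟩ : H)) = ⊤ := by
    have h1 : (Set.range fun j => (⟨s j, hmem j⟩ : H)) =
        (Subtype.val : H → Equiv.Perm (ι → ZMod q)) ⁻¹' (Set.range s) := by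
      ext ⟨g, hg⟩
      simp [Subtype.ext_iff]
    rw [h1]
    subst hH
    exact Subgroup.closure_closure_coe_preimage
  have h1 := Pool.Agent.N24.RW.t_ERG H (ι → ZMod q) W.m (fun j => ⟨s j, hmem j⟩) hgen (red q v) R
  have hcard : (Nat.card (ι → ZMod q) : ℝ) = (q : ℝ) ^ Fintype.card ι := by
    rw [Pool.Agent.N24.RW.Clo.card_pi]
    push_cast
    rfl
  rw [hcard] at h1
  filter_upwards [h1] with w hw
  exact hw (fun n => red q (aorb W v w n)) rfl (fun n => by
    show red q (aff _ _ _) = _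
    rw [red_aff]
    exact (hs _ _).symm)

/-- **Equidistribution**: almost surely, for all starting vectors and all `q` prime to `M`, the orbit is
equidistributed in the residue classes modulo `q`. -/
theorem freq_all (W : AffineWalk ι) :
    ∀ᵐ w ∂(words W.m), ∀ (v : ι → ℤ) (q : ℕ), 0 < q → q.Coprime W.M → ∀ R : Set (ι → ZMod q),
      Tendsto (fun N : ℕ => (({n : ℕ | n < N ∧ red q (aorb W v w n) ∈ R}.ncard : ℕ) : ℝ) /
        (N : ℝ)) atTop (𝓝 ((R.ncard : ℝ) / (q : ℝ) ^ Fintype.card ι)) := by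
  rw [ae_all_iff]
  intro v
  rw [ae_all_iff]
  intro q
  by_cases hq : 0 < q
  swap
  · exact Eventually.of_forall fun w h => absurd h hq
  by_cases hqc : q.Coprime W.M
  swap
  · exact Eventually.of_forall fun w _ h => absurd h hqc
  have : NeZero q := ⟨hq.ne'⟩
  have hfin : Finite (Set (ι → ZMod q)) := inferInstance
  have h1 := ae_all_iff.2 fun R : Set (ι → ZMod q) => freq_one W v q hq hqc R
  filter_upwards [h1] with w hw _ _ R
  exact hw R

/-- every residue class modulo a number prime to `M` is visited with positive frequency -/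
theorem pos_all (W : AffineWalk ι) :
    ∀ᵐ w ∂(words W.m), ∀ (v : ι → ℤ) (q : ℕ), 0 < q → q.Coprime W.M → ∀ G : ι → ℤ,
      ∃ δ : ℝ, 0 < δ ∧ ∀ᶠ N : ℕ in atTop, δ * (N : ℝ) ≤
        ({t : ℕ | t < N ∧ ∀ i, (q : ℤ) ∣ aorb W v w t i - G i}.ncard : ℝ) := by
  filter_upwards [freq_all W] with w hw v q hq hqc G
  have h1 := hw v q hq hqc {red q G}
  have hqp : (0 : ℝ) < (q : ℝ) ^ Fintype.card ι := by
    have : (0 : ℝ) < q := by exact_mod_cast hq
    positivity
  rw [Set.ncard_singleton, Nat.cast_one] at h1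
  refine ⟨1 / (q : ℝ) ^ Fintype.card ι / 2, by positivity, ?_⟩
  have h2 := (tendsto_order.1 h1).1 (1 / (q : ℝ) ^ Fintype.card ι / 2)
    (half_lt_self (by positivity))
  filter_upwards [h2, eventually_gt_atTop 0] with N hN hN0
  have hNr : (0 : ℝ) < N := by exact_mod_cast hN0
  rw [lt_div_iff₀ hNr] at hN
  refine hN.le.trans (le_of_eq ?_)
  congr 2
  ext t
  simp only [Set.mem_setOf_eq, Set.mem_singleton_iff]
  refine and_congr_right fun _ => ?_
  constructor
  · intro h i
    have h3 := congrFun h i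
    simp only [red] at h3
    rw [← ZMod.intCast_zmod_eq_zero_iff_dvd, Int.cast_sub, h3, sub_self]
  · intro h
    funext i
    have h3 := h i
    rw [← ZMod.intCast_zmod_eq_zero_iff_dvd, Int.cast_sub, sub_eq_zero] at h3
    exact h3

end Run7.h972.AW
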