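import Pool.Agent.Run7.h972.AW.Base
import Pool.Agent.N265.ORB.Mult

/-!
# Random orbits of semigroups of affine maps: primes which divide one coordinate and not the value of a
polynomial at the other ones
-/

set_option autoImplicit false

set_option linter.unusedSectionVars false

namespace Run7.h972.AW

open MeasureTheory Filter Topology MvPolynomial
open Pool.Agent.N24.RW (words)
open Pool.Agent.N265.ORB (Bad bad_small OmR eval_red mp)

variable {J : Type} [Fintype J] [DecidableEq J]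

/-- For every `ε` there is a bound `T'` such that almost surely, for all starting vectors and for all but
the proportion `ε` of the times, the distinguished coordinate of the random orbit is not zero and has a
prime factor `p` with `T₀ < p ≤ T'` which does not divide the value of `R` at the other coordinates. -/
theorem mult_aorb (W : AffineWalk (Option J)) {R : MvPolynomial J ℤ} (hR : R ≠ 0) (T₀ : ℕ) (ε : ℝ)
    (hε : 0 < ε) :
    ∃ T' : ℕ, ∀ᵐ w ∂(words W.m), ∀ v : Option J → ℤ, ∀ᶠ N : ℕ in atTop,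
      ({n : ℕ | n < N ∧ ¬ (aorb W v w n none ≠ 0 ∧ ∃ p : ℕ, p.Prime ∧ T₀ < p ∧ p ≤ T' ∧
        (p : ℤ) ∣ aorb W v w n none ∧
        ¬ (p : ℤ) ∣ eval (fun j => aorb W v w n (some j)) R)}.ncard : ℝ) ≤ ε * N := by
  classical
  obtain ⟨P, hP, hPc⟩ := bad_small hR T₀ W.M W.pos (ε / 4) (by linarith)
  have hq : 0 < ∏ p ∈ P, p := Finset.prod_pos fun p hp => (hP p hp).1.pos
  have hqc : (∏ p ∈ P, p).Coprime W.M := Nat.Coprime.prod_left fun p hp => (hP p hp).2.2
  refine ⟨P.sup id, ?_⟩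
  rw [ae_all_iff]
  intro v
  have h1 := step W v (Bad R P) _ hq hqc (ε / 4) hPc
  have h2 := main W v (B := {c | eval c (X none : MvPolynomial (Option J) ℤ) = 0})
    ((Pool.Agent.N24.RW.clo (Option J)).2.2.2.1 _ (X_ne_zero _))
  filter_upwards [h1, h2] with w g1 g2
  have g3 := g1 (ε / 4) (by linarith)
  unfold Pool.Agent.N676.OR.DensityZero at g2
  have g4 := (tendsto_order.1 g2).2 (ε / 4) (by linarith)
  filter_upwards [g3, g4, eventually_gt_atTop 0] with N k3 k4 hN
  have hN' : (0 : ℝ) < N := by exact_mod_cast hN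
  rw [div_le_iff₀ hN'] at k3
  rw [div_lt_iff₀ hN'] at k4
  have hsub : {n : ℕ | n < N ∧ ¬ (aorb W v w n none ≠ 0 ∧ ∃ p : ℕ, p.Prime ∧ T₀ < p ∧ p ≤ P.sup id ∧
        (p : ℤ) ∣ aorb W v w n none ∧ ¬ (p : ℤ) ∣ eval (fun j => aorb W v w n (some j)) R)} ⊆
      {n : ℕ | n < N ∧ aorb W v w n ∈ Bad R P} ∪
        {n : ℕ | n < N ∧ n ∈ {t : ℕ | aorb W v w t ∈
          {c | eval c (X none : MvPolynomial (Option J) ℤ) = 0}}} := by
    rintro n ⟨hn, hn'⟩
    by_cases h0 : aorb W v w n none = 0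
    · right
      refine ⟨hn, ?_⟩
      show eval (aorb W v w n) (X none : MvPolynomial (Option J) ℤ) = 0
      rw [eval_X, h0]
    · left
      refine ⟨hn, fun p hp hmem => hn' ⟨h0, p, (hP p hp).1, (hP p hp).2.1,
        Finset.le_sup (f := id) hp, ?_, ?_⟩⟩
      · have := hmem.1
        exact (ZMod.intCast_zmod_eq_zero_iff_dvd _ _).1 this
      · intro hdvd
        apply hmem.2
        have h3 := eval_red p R (fun j => aorb W v w n (some j))
        show eval (fun j => ((aorb W v w n (some j) : ℤ) : ZMod p)) (mp p R) = 0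
        rw [h3]
        exact (ZMod.intCast_zmod_eq_zero_iff_dvd _ _).2 hdvd
  have hf1 : {n : ℕ | n < N ∧ aorb W v w n ∈ Bad R P}.Finite :=
    (Set.finite_Iio N).subset fun n hn => hn.1
  have hf2 : {n : ℕ | n < N ∧ n ∈ {t : ℕ | aorb W v w t ∈
      {c | eval c (X none : MvPolynomial (Option J) ℤ) = 0}}}.Finite :=
    (Set.finite_Iio N).subset fun n hn => hn.1
  have h5 := (Set.ncard_le_ncard hsub (hf1.union hf2)).trans (Set.ncard_union_le _ _)
  have h6 : ({n : ℕ | n < N ∧ ¬ (aorb W v w n none ≠ 0 ∧ ∃ p : ℕ, p.Prime ∧ T₀ < p ∧ p ≤ P.sup id ∧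
        (p : ℤ) ∣ aorb W v w n none ∧
        ¬ (p : ℤ) ∣ eval (fun j => aorb W v w n (some j)) R)}.ncard : ℝ) ≤
      ({n : ℕ | n < N ∧ aorb W v w n ∈ Bad R P}.ncard : ℝ) +
      ({n : ℕ | n < N ∧ n ∈ {t : ℕ | aorb W v w t ∈
        {c | eval c (X none : MvPolynomial (Option J) ℤ) = 0}}}.ncard : ℝ) := by
    exact_mod_cast h5
  calc _ ≤ _ := h6
    _ ≤ (ε / 4 + ε / 4) * N + ε / 4 * N := add_le_add k3 k4.le
    _ ≤ ε * N := by nlinarith

end Run7.h972.AW
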