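import Pool.Agent.Run7.h972.AW.Freq
import Pool.Agent.N918.PN.Seq

/-!
# Random orbits of semigroups of affine maps rarely visit sets whose closure in `ℤ_p ^ d` has measure zero
-/

set_option autoImplicit false

namespace Run7.h972.AW

open MeasureTheory Filter Topology
open Pool.Agent.N24.RW (words)
open Pool.Agent.N24.KM (Rarely)
open Pool.Agent.N918.PN (PNull rarely_of_freq)

/-- Almost surely, for all starting vectors, all primes `p` prime to `M` and all sets whose closure in
`ℤ_p ^ d` has Haar measure zero, the orbit is in the set only at times of density zero. -/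
theorem aorb_rarely {d : ℕ} (W : AffineWalk (Fin d)) :
    ∀ᵐ w ∂(words W.m), ∀ (v : Fin d → ℤ) (p : ℕ), p.Prime → ¬ p ∣ W.M →
      ∀ B : Set (Fin d → ℤ), PNull p B → Rarely (aorb W v w) B := by
  filter_upwards [freq_all W] with w hw v p hp hM B hB
  refine rarely_of_freq zero_le_one hp.pos (fun k S δ hδ => ?_) hB
  have hc : (p ^ k).Coprime W.M :=
    Nat.Coprime.pow_left k ((Nat.Prime.coprime_iff_not_dvd hp).2 hM)
  have h1 := hw v (p ^ k) (pow_pos hp.pos k) hc S
  rw [Fintype.card_fin] at h1
  have h2 := (tendsto_order.1 h1).2 (1 * ((S.ncard : ℝ) / ((p ^ k : ℕ) : ℝ) ^ d) + δ) (by linarith)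
  filter_upwards [h2] with N hN
  exact hN.le

end Run7.h972.AW
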